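import Pool.Agent.W684.CF.Frame

/-! # CF-EXT: the stem at a coordinate can be made long -/

set_option autoImplicit false
set_option linter.unusedSectionVars false

namespace Pool.Agent.W179.CF

open Classical Pool.Agent.W684.CF

variable {M I W : Type} {rs : I → Prop} [LinearOrder W] [WellFoundedLT W]

theorem ext_long' (Γ : Par M W rs) (j : I) (N : ℕ) (p : Cond M rs) :
    ∃ p', le Γ Set.univ p' p ∧ N ≤ (p' j).stem.length ∧ (p' j).pr = (p j).pr := by
  set S : Set I := below Γ (Γ.rk j) with hSdef
  have hS : Low Γ S := low_below _
  have hjS : j ∉ S := fun h => lt_irrefl _ h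
  let nm : M → Nm M rs := fun k => match Γ.req j k with
    | some (x, _) => x
    | none => fun _ _ => none
  have hnm : ∀ k x a, Γ.req j k = some (x, a) → nm k = x := by
    intro k x a h
    simp only [nm, h]
  let F : List (Nm M rs × ℕ) :=
    (p j).pr.toList.flatMap fun k => (List.range N).map fun i => (nm k, i)
  obtain ⟨t, htp, htd⟩ := Val.decide (Γ := Γ) hS F p
  have hdec : ∀ k ∈ (p j).pr, ∀ i < N, ∃ v, Val (le Γ S) t (nm k) i v := by
    intro k hk i hi
    apply htd
    simp only [F, List.mem_flatMap, Finset.mem_toList, List.mem_map, List.mem_range]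
    exact ⟨k, hk, i, hi, rfl⟩
  let v : M → ℕ → ℕ := fun k i =>
    if h : ∃ v, Val (le Γ S) t (nm k) i v then Classical.choose h else 0
  have hv : ∀ k ∈ (p j).pr, ∀ i < N, Val (le Γ S) t (nm k) i (v k i) := by
    intro k hk i hi
    have h := hdec k hk i hi
    simp only [v, dif_pos h]
    exact Classical.choose_spec h
  set len := (p j).stem.length with hlen
  let g : ℕ → Finset ℕ := fun i => (p j).pr.image fun k => v k (len + i)
  let st : List (Finset ℕ) := (p j).stem ++ (List.range (N - len)).map g
  have hstlen : st.length = len + (N - len) := by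
    simp only [st, List.length_append, List.length_map, List.length_range, hlen]
  have hst1 : ∀ i < len, st.getD i ∅ = (p j).stem.getD i ∅ := by
    intro i hi
    exact List.getD_append _ _ _ _ hi
  have hst2 : ∀ i, len ≤ i → i < st.length → st.getD i ∅ = g (i - len) := by
    intro i hi hi'
    have h1 : i - len < N - len := by omega
    show ((p j).stem ++ (List.range (N - len)).map g).getD i ∅ = _
    rw [List.getD_append_right _ _ _ _ hi, List.getD_eq_getElem?_getD, List.getElem?_map,
      List.getElem?_range h1]
    rfl
  have hleg : rs j → Legit (⟨st, (p j).pr⟩ : CV M) := by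
    intro hj
    have hl := p.legit hj
    refine ⟨?_, ?_⟩
    · show (p j).pr.card ≤ st.length
      have := hl.1
      omega
    · intro i hi
      show (st.getD i ∅).card ≤ i
      have hi' : i < st.length := hi
      by_cases h : i < len
      · rw [hst1 i h]
        exact hl.2 i h
      · rw [hst2 i (not_lt.1 h) hi']
        have h1 : (g (i - len)).card ≤ (p j).pr.card := Finset.card_image_le
        have h2 := hl.1
        omega
  let p1 : Cond M rs := mix S t p
  let p' : Cond M rs := upd p1 j ⟨st, (p j).pr⟩ hleg
  have hp'j : p' j = ⟨st, (p j).pr⟩ := upd_same p1 j _ hleg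
  have hp'S : ∀ i ∈ S, p' i = t i := by
    intro i hi
    have hne : i ≠ j := fun h => hjS (h ▸ hi)
    rw [upd_of_ne p1 _ hleg hne]
    exact mix_mem t p hi
  have hp'o : ∀ i, i ∉ S → i ≠ j → p' i = p i := by
    intro i hi hne
    rw [upd_of_ne p1 _ hleg hne]
    exact mix_notMem t p hi
  refine ⟨p', ?_, ?_, ?_⟩
  · intro i _
    by_cases hi : i ∈ S
    · exact ext_congr i (fun l hl => (hp'S l (hS i hi l hl)).symm) (hp'S i hi).symm rfl (htp i hi)
    · by_cases hij : i = j
      · subst hij
        rw [ext_iff, hp'j]
        refine ⟨List.prefix_append _ _, Finset.Subset.refl _, ?_⟩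
        intro k hk x a hx m hm hm' t' ht' n hn _
        have hx' := hnm k x a hx
        have htt : le Γ S t' t := le_trans' hS ht'
          (le_congr hS (fun l hl => (hp'S l hl).symm) (fun _ _ => rfl) (le_refl' S t))
        have hm1 : m < st.length := hm'
        have hm2 : len ≤ m := hm
        have hmN : m < N := by omega
        have h1 : Val (le Γ S) t' x m (v k m) := by
          have := (hv k hk m hmN).mono hS htt
          rwa [hx'] at this
        have h2 : n = v k m := Val.unique hn h1
        show n ∈ st.getD m ∅
        rw [hst2 m hm2 hm1, h2]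
        have h3 : len + (m - len) = m := by omega
        refine Finset.mem_image.2 ⟨k, hk, ?_⟩
        simp only [h3]
      · exact ext_of_eq (hp'o i hi hij)
  · rw [hp'j]
    show N ≤ st.length
    omega
  · rw [hp'j]

theorem ext_long : S_EXT := fun _ _ _ _ _ _ _ Γ _ j N p => ext_long' Γ j N p

end Pool.Agent.W179.CF
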