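import Pool.Agent.W684.CF.Frame

/-! # CF-RAW: names can be replaced by raw names -/

set_option autoImplicit false
set_option linter.unusedSectionVars false

namespace Pool.Agent.W179.CF

open Classical Pool.Agent.W684.CF Pool.Agent.Helper669.Forcing

variable {M I W : Type} {rs : I → Prop} [LinearOrder W] [WellFoundedLT W]

theorem exists_predense {Γ : Par M W rs} (hccc : CCC Γ) (φ : Set (Cond M rs)) :
    ∃ g : ℕ → Option (Cond M rs), (∀ m u, g m = some u → u ∈ φ) ∧
      ∀ p ∈ φ, ∃ m a, g m = some a ∧ ∃ r, le Γ Set.univ r p ∧ le Γ Set.univ r a := by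
  have : ∃ A, Maximal (fun A : Set (Cond M rs) => A ⊆ φ ∧
      ∀ p ∈ A, ∀ q ∈ A, p ≠ q → ¬ ∃ r, le Γ Set.univ r p ∧ le Γ Set.univ r q) A := by
    apply zorn_subset {A : Set (Cond M rs) | A ⊆ φ ∧
      ∀ p ∈ A, ∀ q ∈ A, p ≠ q → ¬ ∃ r, le Γ Set.univ r p ∧ le Γ Set.univ r q}
    intro c hc hchain
    refine ⟨⋃₀ c, ⟨Set.sUnion_subset fun A hA => (hc hA).1, ?_⟩,
      fun s hs => Set.subset_sUnion_of_mem hs⟩
    rintro p ⟨A, hA, hpA⟩ q ⟨B, hB, hqB⟩ hne
    rcases hchain.total hA hB with h | h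
    · exact (hc hB).2 p (h hpA) q hqB hne
    · exact (hc hA).2 p hpA q (h hqB) hne
  obtain ⟨A, ⟨h1, h2⟩, hmax⟩ := this
  have hcount : A.Countable := by
    by_contra hcon
    obtain ⟨p, hp, q, hq, hne, h⟩ := hccc A hcon
    exact h2 p hp q hq hne h
  have hdense : ∀ p ∈ φ, ∃ a ∈ A, ∃ r, le Γ Set.univ r p ∧ le Γ Set.univ r a := by
    intro p hp
    by_contra hcon
    push Not at hcon
    have hpA : p ∉ A := fun h => hcon p h p (le_refl' Set.univ p) (le_refl' Set.univ p)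
    apply hpA
    refine hmax (y := insert p A) ⟨Set.insert_subset hp h1, ?_⟩ (Set.subset_insert p A)
      (Set.mem_insert p A)
    rintro x (rfl | hx) y (rfl | hy) hne
    · exact absurd rfl hne
    · rintro ⟨r, hr1, hr2⟩
      exact hcon y hy r hr1 hr2
    · rintro ⟨r, hr1, hr2⟩
      exact hcon x hx r hr2 hr1
    · exact h2 x hx y hy hne
  rcases A.eq_empty_or_nonempty with h | h
  · refine ⟨fun _ => none, fun m u hu => by simp at hu, fun p hp => ?_⟩
    obtain ⟨a, ha, -⟩ := hdense p hp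
    rw [h] at ha
    exact absurd ha (Set.notMem_empty a)
  · obtain ⟨g, hg⟩ := hcount.exists_eq_range h
    refine ⟨fun m => some (g m), ?_, fun p hp => ?_⟩
    · intro m u hu
      have : g m = u := Option.some_injective _ hu
      exact h1 (by rw [hg, ← this]; exact Set.mem_range_self m)
    · obtain ⟨a, ha, hr⟩ := hdense p hp
      rw [hg] at ha
      obtain ⟨m, rfl⟩ := ha
      exact ⟨m, g m, rfl, hr⟩

/-- S_RAWF -/
theorem rawF : S_RAWF := by
  intro M I W rs _ _ Γ hccc x p hp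
  let φ : ℕ → Set (Cond M rs) := fun n => {q | le Γ Set.univ q p.toC ∧ ∃ v, (q : PP Γ) ∈ meets (x n v)}
  choose g hg1 hg2 using fun n => exists_predense hccc (φ n)
  let val : ℕ → Cond M rs → ℕ := fun n u =>
    if h : ∃ v, (u : PP Γ) ∈ meets (x n v) then Classical.choose h else 0
  have hval : ∀ n (u : Cond M rs), (∃ v, (u : PP Γ) ∈ meets (x n v)) →
      (u : PP Γ) ∈ meets (x n (val n u)) := by
    intro n u h
    simp only [val, dif_pos h]
    exact Classical.choose_spec h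
  refine ⟨fun n m => (g n m).map fun u => (u, val n u), ?_⟩
  intro q hq n v hv
  rcases hv with ⟨m, u, h1, h2, _⟩ | ⟨_, h2⟩
  · obtain ⟨u', hu', he⟩ := Option.map_eq_some_iff.1 h1
    have h3 : u' = u := (Prod.mk.inj he).1
    have h4 : val n u' = v := (Prod.mk.inj he).2
    rw [h3] at hu' h4
    have h5 : u ∈ φ n := hg1 n m u hu'
    have h6 := hval n u h5.2
    rw [h4] at h6
    exact down_meets (P := PP Γ) _ u h6 q h2
  · exfalso
    obtain ⟨r, hr, v', hv'⟩ := IsFun.total (down_IsFun x p hp q hq) n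
    have h3 : r.toC ∈ φ n := ⟨(hr.trans hq : r ≤ p), v', hv'⟩
    obtain ⟨m, a, hm, s, hs, hs'⟩ := hg2 n r.toC h3
    refine h2 m a (val n a) ?_ ⟨s, ?_, hs'⟩
    · show (g n m).map _ = _
      rw [hm]
      rfl
    · exact le_trans' low_univ hs hr

/-- S_RAWB -/
theorem rawB : S_RAWB := by
  intro M I W rs _ _ Γ hccc E
  let φ : Set (Cond M rs) := {q | (q : PP Γ) ∈ meets E}
  obtain ⟨g, hg1, hg2⟩ := exists_predense hccc φ
  refine ⟨fun n m => if n = 0 then (g m).map fun u => (u, 1) else none, ?_⟩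
  intro q v hv
  rcases hv with ⟨m, u, h1, h2, _⟩ | ⟨h0, h2⟩
  · beta_reduce at h1
    rw [if_pos rfl] at h1
    obtain ⟨u', hu', he⟩ := Option.map_eq_some_iff.1 h1
    have h3 : u' = u := (Prod.mk.inj he).1
    have h4 : 1 = v := (Prod.mk.inj he).2
    rw [h3] at hu'
    refine ⟨fun h => by omega, fun _ => ?_⟩
    have h5 : (u : PP Γ) ∈ meets E := hg1 m u hu'
    exact down_meets (P := PP Γ) _ u h5 q h2
  · refine ⟨fun _ r hr hrE => ?_, fun h => absurd h0 h⟩
    obtain ⟨m, a, hm, s, hs, hs'⟩ := hg2 r.toC hrE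
    refine h2 m a 1 ?_ ⟨s, ?_, hs'⟩
    · beta_reduce
      rw [if_pos rfl, hm]
      rfl
    · exact le_trans' low_univ hs hr

end Pool.Agent.W179.CF
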